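import Mathlib
import Pool.Agent.TH888.C.Val
import Pool.Agent.H447R2.ML.Spec
import Pool.Agent.R242.PE.Arith

set_option autoImplicit false

/-!
# Primes in the solutions of the negative Pell equation with a real parameter

For a real number `s` let `(P s l, R s l)` be given by
`P s l + R s l √(1 + s²) = (s + √(1 + s²)) ^ l`, so that
`P s l ^ 2 - (1 + s ^ 2) * R s l ^ 2 = -1` for odd `l`.  At `s = 1` these are the solutions of
`p² - 2 r² = -1`, and `P 1 l` is prime only for prime `l`.  For a prime `l` let `W f l` be the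
`l`-rough part (the product, with multiplicity, of the prime factors larger than `l`) of the integer
part of `f l`; at `s = 1` nothing is removed: `W (P 1) l = P 1 l` and `W (R 1) l = R 1 l` for all
primes `l ≥ 5`.  So Q1 asks whether `W (P s) l` is prime for infinitely many primes `l` at the point
`s = 1`, and Q2 asks the same for `W (P s) l` and `W (R s) l` simultaneously.

We prove that for almost every `s > 0`, and `F = P` or `F = R`, the number of primes `l ≤ n` with
`W (F s) l` prime is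
`(e ^ γ / log (s + √(1 + s²))) log n + O((log n) ^ (1/2) (log log n) ^ (5/2))`, that for every set
`S` and almost every `s > 0` there are infinitely many such primes `l` in `S` if and only if the sum
of `log l / l` over the primes in `S` diverges, and that in this case their number up to `n` is
`(e ^ γ / log (s + √(1 + s²))) w + O((w K) ^ (1/2) (log (w K)) ^ 2)`, with `w` the sum of
`log l / l` over the primes `l ≤ n` in `S` and `K = log log n`.

The proof identifies `P s` and `R s` with Lucas sequences with the real parameter `2 s` and uses the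
theorem of the starting files on these (`TH888.C.pt_U_curve`, `TH888.C.pt_V_curve`).
-/

namespace Pool.Agent.Results.MP_927e73_nt.RealParameter

open Filter Topology MeasureTheory Asymptotics
open Pool.Agent.R242.PE

/-- The pair `(P s l, R s l)`. -/
noncomputable def sol (s : ℝ) : ℕ → ℝ × ℝ
  | 0 => (1, 0)
  | (l + 1) => (s * (sol s l).1 + (1 + s ^ 2) * (sol s l).2, (sol s l).1 + s * (sol s l).2)

/-- The first coordinate of the solution. -/
noncomputable def P (s : ℝ) (l : ℕ) : ℝ := (sol s l).1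

/-- The second coordinate of the solution. -/
noncomputable def R (s : ℝ) (l : ℕ) : ℝ := (sol s l).2

/-- The product, with multiplicity, of the prime factors of `m` that are larger than `l`. -/
def roughPart (l m : ℕ) : ℕ := (m.primeFactorsList.filter (fun r => l < r)).prod

/-- The `l`-rough part of the integer part of `f l`. -/
noncomputable def W (f : ℕ → ℝ) (l : ℕ) : ℕ := roughPart l ⌊f l⌋₊

open Classical in
/-- The number of primes `l ≤ n` in the set `S` for which `W f l` is prime. -/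
noncomputable def M (S : Set ℕ) (f : ℕ → ℝ) (n : ℕ) : ℕ :=
  ((Finset.range (n + 1)).filter (fun l => l.Prime ∧ l ∈ S ∧ (W f l).Prime)).card

open Classical in
/-- The sum of `log l / l` over the primes `l ≤ n` in the set `S`. -/
noncomputable def w (S : Set ℕ) (n : ℕ) : ℝ :=
  ∑ l ∈ (Finset.range (n + 1)).filter (fun l => l.Prime ∧ l ∈ S), Real.log l / l

lemma w_eq (S : Set ℕ) (n : ℕ) : w S n = Pool.Agent.TH888.R.VS S n := by
  classical
  unfold w Pool.Agent.TH888.R.VS
  rw [Finset.sum_filter]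
  refine Finset.sum_congr rfl fun p _ => ?_
  by_cases h : p.Prime ∧ p ∈ S
  · rw [if_pos h, if_pos ⟨h.2, h.1⟩]
    rfl
  · rw [if_neg h, if_neg fun h1 => h ⟨h1.2, h1.1⟩]

lemma M_eq (S : Set ℕ) (f : ℕ → ℝ) (n : ℕ) :
    M S f n = Pool.Agent.TH888.R.cS S (fun p => ⌊f p⌋₊) n := by
  classical
  unfold M Pool.Agent.TH888.R.cS
  rfl

/-- the defining property of the solutions -/
lemma sol_pow (s : ℝ) (l : ℕ) :
    P s l + R s l * Real.sqrt (1 + s ^ 2) = (s + Real.sqrt (1 + s ^ 2)) ^ l ∧
      P s l ^ 2 - (1 + s ^ 2) * R s l ^ 2 = (-1) ^ l := by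
  unfold P R
  have hq : Real.sqrt (1 + s ^ 2) ^ 2 = 1 + s ^ 2 := Real.sq_sqrt (by positivity)
  induction l with
  | zero => simp [sol]
  | succ l ih =>
    obtain ⟨h1, h2⟩ := ih
    simp only [sol]
    constructor
    · rw [pow_succ (s + Real.sqrt (1 + s ^ 2)) l, ← h1]
      linear_combination (-(sol s l).2) * hq
    · rw [pow_succ (-1 : ℝ) l, ← h2]
      ring

lemma sol_lucas (s : ℝ) (l : ℕ) : (sol s l).1 = 1 / 2 * Pool.Agent.W66C.lV (2 * s) l ∧
    (sol s l).2 = Pool.Agent.W66C.lU (2 * s) l := by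
  induction l using Nat.twoStepInduction with
  | zero => simp [sol, Pool.Agent.W66C.lU, Pool.Agent.W66C.lV]
  | one => simp [sol, Pool.Agent.W66C.lU, Pool.Agent.W66C.lV]
  | more n h1 h2 =>
    constructor
    · show s * (sol s (n + 1)).1 + (1 + s ^ 2) * (sol s (n + 1)).2 =
        1 / 2 * (2 * s * Pool.Agent.W66C.lV (2 * s) (n + 1) + Pool.Agent.W66C.lV (2 * s) n)
      have e1 : (1 / 2 : ℝ) * (2 * s * Pool.Agent.W66C.lV (2 * s) (n + 1) +
          Pool.Agent.W66C.lV (2 * s) n) = 2 * s * (sol s (n + 1)).1 + (sol s n).1 := by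
        rw [h1.1, h2.1]; ring
      rw [e1]
      simp only [sol]
      ring
    · show (sol s (n + 1)).1 + s * (sol s (n + 1)).2 =
        2 * s * Pool.Agent.W66C.lU (2 * s) (n + 1) + Pool.Agent.W66C.lU (2 * s) n
      rw [← h1.2, ← h2.2]
      simp only [sol]
      ring

lemma sol_one (l : ℕ) : P 1 l = ((sN l).1 : ℝ) ∧ R 1 l = ((sN l).2 : ℝ) := by
  unfold P R
  induction l with
  | zero => simp [sol, sN]
  | succ l ih =>
    rw [(sN_succ l).1, (sN_succ l).2]
    simp only [sol, ih.1, ih.2]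
    push_cast
    constructor <;> ring

lemma UV_two (l : ℕ) : Pool.Agent.H447R2.ML.V 2 l = 2 * (sN l).1 ∧
    Pool.Agent.H447R2.ML.U 2 l = (sN l).2 := by
  induction l using Nat.twoStepInduction with
  | zero => exact ⟨rfl, rfl⟩
  | one => exact ⟨rfl, rfl⟩
  | more n h1 h2 =>
    rw [Pool.Agent.H447R2.ML.U_add_two, Pool.Agent.H447R2.ML.V_add_two, h1.1, h1.2, h2.1, h2.2]
    simp only [sN]
    constructor <;> ring

/-- nothing is removed at `s = 1` -/
lemma W_one {l : ℕ} (hl : l.Prime) (h5 : 5 ≤ l) : W (P 1) l = (sN l).1 ∧ W (R 1) l = (sN l).2 := by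
  have hd2 : ¬ l ∣ 2 := fun h => by
    have := Nat.le_of_dvd (by norm_num) h
    omega
  constructor
  · show Pool.Agent.H305R2.roughPart l ⌊P 1 l⌋₊ = (sN l).1
    rw [(sol_one l).1, Nat.floor_natCast]
    refine Pool.Agent.H447R2.ML.roughPart_eq_self (sN_pos l).ne' fun q hq h => ?_
    refine Pool.Agent.H447R2.ML.lt_of_dvd_V 2 hl h5 hd2 hq (fun h' => ?_) ?_
    · have hq2 : q = 2 := (Nat.prime_dvd_prime_iff_eq hq Nat.prime_two).1 h'
      rw [hq2] at h
      have := sN_odd l
      omega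
    · rw [(UV_two l).1]
      exact h.mul_left 2
  · show Pool.Agent.H305R2.roughPart l ⌊R 1 l⌋₊ = (sN l).2
    rw [(sol_one l).2, ← (UV_two l).2]
    refine Pool.Agent.H447R2.ML.rough_U 2 (by norm_num) hl h5 (fun h => ?_) rfl
    have h8 : l ∣ 2 ^ 3 := by norm_num at h ⊢; exact h
    exact hd2 (hl.dvd_of_dvd_pow h8)

lemma quasi : Measure.QuasiMeasurePreserving (fun s : ℝ => 2 * s) volume volume := by
  refine ⟨measurable_const_mul 2, ?_⟩
  rw [Real.map_volume_mul_left (by norm_num)]
  exact Measure.smul_absolutelyContinuous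

lemma log_eq (s : ℝ) : Real.log ((2 * s + Real.sqrt ((2 * s) ^ 2 + 4)) / 2) =
    Real.log (s + Real.sqrt (1 + s ^ 2)) := by
  congr 1
  have h1 : (2 * s) ^ 2 + 4 = 2 ^ 2 * (1 + s ^ 2) := by ring
  rw [h1, Real.sqrt_mul (by norm_num), Real.sqrt_sq (by norm_num)]
  ring

lemma pt {F : ℝ → ℕ → ℝ} (hF : F = P ∨ F = R) (S : Set ℕ) :
    ∀ᵐ s : ℝ, 0 < s → Pool.Agent.TH888.R.Pt (fun p => ⌊F s p⌋₊)
      (Real.exp Real.eulerMascheroniConstant / Real.log (s + Real.sqrt (1 + s ^ 2))) S := by
  rcases hF with rfl | rfl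
  · have h := quasi.ae (Pool.Agent.TH888.C.pt_V_curve S (A := fun _ => 1 / 2) contDiffOn_const
      (fun x _ => by norm_num))
    filter_upwards [h] with s hs h0
    have h1 := hs (by linarith)
    rw [log_eq] at h1
    have e : (fun p => ⌊P s p⌋₊) = fun p => ⌊1 / 2 * Pool.Agent.W66C.lV (2 * s) p⌋₊ := by
      funext p
      show ⌊(sol s p).1⌋₊ = _
      rw [(sol_lucas s p).1]
    rw [e]
    exact h1
  · have h := quasi.ae (Pool.Agent.TH888.C.pt_U_curve S (A := fun _ => 1) contDiffOn_const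
      (fun x _ => by norm_num))
    filter_upwards [h] with s hs h0
    have h1 := hs (by linarith)
    rw [log_eq] at h1
    have e : (fun p => ⌊R s p⌋₊) = fun p => ⌊1 * Pool.Agent.W66C.lU (2 * s) p⌋₊ := by
      funext p
      show ⌊(sol s p).2⌋₊ = _
      rw [(sol_lucas s p).2, one_mul]
    rw [e]
    exact h1

lemma finite_le (A : ℕ → Prop) {S : Set ℕ} (h : ∀ l, 5 ≤ l → (l ∈ S ↔ A l)) :
    S.Infinite ↔ {l | A l}.Infinite := by
  have key : ∀ S T : Set ℕ, (∀ l, 5 ≤ l → l ∈ S → l ∈ T) → S.Infinite → T.Infinite := by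
    intro S T hST hS hT
    apply hS
    refine (hT.union (Set.finite_lt_nat 5)).subset fun l hl => ?_
    by_cases h5 : 5 ≤ l
    · exact Or.inl (hST l h5 hl)
    · exact Or.inr (by simpa using h5)
  exact ⟨key _ _ fun l h5 hl => (h l h5).1 hl, key _ _ fun l h5 hl => (h l h5).2 hl⟩

/-- `(P s l, R s l)` is the solution with parameter `s`. At `s = 1` these are the solutions of
`p² - 2 r² = -1`, nothing is removed for primes `l ≥ 5`, and the questions ask for infinitely many
prime values; for almost every `s > 0` both sequences have the expected number of prime values, with a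
square root error term, and for every set of primes the number of prime values is finite or infinite
according to the weight of the set. -/
theorem result :
    (∀ s : ℝ, ∀ l : ℕ, P s l + R s l * Real.sqrt (1 + s ^ 2) = (s + Real.sqrt (1 + s ^ 2)) ^ l ∧
      P s l ^ 2 - (1 + s ^ 2) * R s l ^ 2 = (-1) ^ l) ∧
    (∀ l : ℕ, l.Prime → 5 ≤ l → (W (P 1) l : ℝ) = P 1 l ∧ (W (R 1) l : ℝ) = R 1 l) ∧
    ({x : ℕ × ℕ | 0 < x.1 ∧ 0 < x.2 ∧ x.1 ^ 2 + 1 = 2 * x.2 ^ 2 ∧ x.1.Prime}.Infinite ↔
      {l : ℕ | l.Prime ∧ (W (P 1) l).Prime}.Infinite) ∧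
    ({x : ℕ × ℕ | 0 < x.1 ∧ 0 < x.2 ∧ x.1 ^ 2 + 1 = 2 * x.2 ^ 2 ∧ x.1.Prime ∧ x.2.Prime}.Infinite ↔
      {l : ℕ | l.Prime ∧ (W (P 1) l).Prime ∧ (W (R 1) l).Prime}.Infinite) ∧
    (∀ F : ℝ → ℕ → ℝ, F = P ∨ F = R →
      (∀ᵐ s : ℝ, 0 < s →
        (fun n : ℕ => (M Set.univ (F s) n : ℝ) - Real.exp Real.eulerMascheroniConstant /
          Real.log (s + Real.sqrt (1 + s ^ 2)) * Real.log n) =O[atTop]
        (fun n : ℕ => Real.sqrt (Real.log n) * (Real.log (Real.log n)) ^ ((5 : ℝ) / 2))) ∧
      (∀ S : Set ℕ, Tendsto (w S) atTop atTop → ∀ᵐ s : ℝ, 0 < s →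
        (fun n : ℕ => (M S (F s) n : ℝ) - Real.exp Real.eulerMascheroniConstant /
          Real.log (s + Real.sqrt (1 + s ^ 2)) * w S n) =O[atTop]
        (fun n : ℕ => Real.sqrt (w S n * Real.log (Real.log n)) *
          (Real.log (w S n * Real.log (Real.log n))) ^ 2)) ∧
      (∀ S : Set ℕ, ∀ᵐ s : ℝ, 0 < s →
        ({l : ℕ | l.Prime ∧ l ∈ S ∧ (W (F s) l).Prime}.Infinite ↔ Tendsto (w S) atTop atTop))) := by
  have hV : ∀ S, w S = Pool.Agent.TH888.R.VS S := fun S => funext fun n => w_eq S n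
  refine ⟨sol_pow, fun l hl h5 => ?_, ?_, ?_, fun F hF => ⟨?_, fun S hS => ?_, fun S => ?_⟩⟩
  · rw [(W_one hl h5).1, (W_one hl h5).2, (sol_one l).1, (sol_one l).2]
    exact ⟨rfl, rfl⟩
  · refine (inf_iff (A := fun p _ => p.Prime) fun p _ h => h).trans
      (finite_le _ fun l h5 => ?_)
    constructor
    · rintro ⟨h1, h2, h3⟩
      refine ⟨h1, ?_⟩
      rw [(W_one h1 h5).1]
      exact h3
    · rintro ⟨h1, h2⟩
      rw [(W_one h1 h5).1] at h2
      exact ⟨h1, by omega, h2⟩
  · refine (inf_iff (A := fun p r => p.Prime ∧ r.Prime) fun p _ h => h.1).trans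
      (finite_le _ fun l h5 => ?_)
    constructor
    · rintro ⟨h1, h2, h3, h4⟩
      refine ⟨h1, ?_, ?_⟩
      · rw [(W_one h1 h5).1]
        exact h3
      · rw [(W_one h1 h5).2]
        exact h4
    · rintro ⟨h1, h2, h3⟩
      rw [(W_one h1 h5).1] at h2
      rw [(W_one h1 h5).2] at h3
      exact ⟨h1, by omega, h2, h3⟩
  · filter_upwards [pt hF Set.univ] with x hx h0
    obtain ⟨B, hB, h⟩ := (hx h0).law Pool.Agent.TH888.R.VS_univ_tendsto
    simp only [M_eq]
    exact Pool.Agent.TH888.R.bigO_all hB h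
  · rw [hV] at hS ⊢
    filter_upwards [pt hF S] with x hx h0
    obtain ⟨B, hB, h⟩ := (hx h0).law hS
    simp only [M_eq]
    exact Pool.Agent.TH888.R.bigO_set hB hS h
  · rw [hV]
    filter_upwards [pt hF S] with x hx h0
    constructor
    · intro hi
      by_contra hn
      exact hi ((hx h0).fin hn)
    · exact (hx h0).inf

end Pool.Agent.Results.MP_927e73_nt.RealParameter
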