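import Mathlib
import Pool.Agent.R449.SP.Sil

set_option autoImplicit false

/-!
# Primes in the real solutions of the recurrence of `p ^ 2 - 2 r ^ 2 = -1`

The solutions of `p ^ 2 - 2 r ^ 2 = -1` are the points of odd index in the orbit of `(1, 0)` under
`(x, y) ↦ (x + 2 y, x + y)`.  The real orbits of this map are the sequences `(X β B n, Y β B n)`.  For
a prime `l` the `l`-rough part of the integer part of the coordinate of index `l` is, for the orbit
of `(1, 0)` and `l ≥ 5`, the number `p_k` resp. `r_k`, `l = 2 k + 1`.  We prove that for every `B` and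
almost every `β > 0` these rough parts are prime with the expected frequency.
-/

namespace Pool.Agent.Results.MP_927e73_nt.SilverBase

open Filter Topology MeasureTheory Asymptotics

/-- The positive integer solutions of `p ^ 2 - 2 r ^ 2 = -1`. -/
def sol : ℕ → ℕ × ℕ
  | 0 => (1, 1)
  | (k + 1) => (3 * (sol k).1 + 4 * (sol k).2, 2 * (sol k).1 + 3 * (sol k).2)

/-- First coordinates of the real orbits of `(x, y) ↦ (x + 2 y, x + y)`. -/
noncomputable def X (β B : ℝ) (n : ℕ) : ℝ :=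
  (β * (1 + Real.sqrt 2) ^ n + B * (1 - Real.sqrt 2) ^ n) / 2

/-- Second coordinates of the real orbits of `(x, y) ↦ (x + 2 y, x + y)`. -/
noncomputable def Y (β B : ℝ) (n : ℕ) : ℝ :=
  (β * (1 + Real.sqrt 2) ^ n - B * (1 - Real.sqrt 2) ^ n) / (2 * Real.sqrt 2)

/-- The product, with multiplicity, of the prime factors of `m` that are larger than `l`. -/
def roughPart (l m : ℕ) : ℕ := (m.primeFactorsList.filter (fun r => l < r)).prod

open Classical in
/-- The number of primes `l ≤ n` in `S` for which the `l`-rough part of `⌊Z l⌋` is prime. -/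
noncomputable def M (S : Set ℕ) (Z : ℕ → ℝ) (n : ℕ) : ℕ :=
  ((Finset.range (n + 1)).filter (fun l => l.Prime ∧ l ∈ S ∧ (roughPart l ⌊Z l⌋₊).Prime)).card

open Classical in
/-- The sum of `log l / l` over the primes `l ≤ n` in `S`. -/
noncomputable def V (S : Set ℕ) (n : ℕ) : ℝ :=
  ∑ l ∈ (Finset.range (n + 1)).filter (fun l => l.Prime ∧ l ∈ S), Real.log l / l

/-- The laws for the sequence `Z`. -/
def Laws (Z : ℝ → ℕ → ℝ) : Prop :=
  (∀ᵐ β : ℝ, 0 < β →
    (fun n : ℕ => (M Set.univ (Z β) n : ℝ) -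
      Real.exp Real.eulerMascheroniConstant / Real.log (1 + Real.sqrt 2) * Real.log n) =O[atTop]
    (fun n : ℕ => Real.sqrt (Real.log n) * (Real.log (Real.log n)) ^ ((5 : ℝ) / 2))) ∧
  (∀ S : Set ℕ, Tendsto (V S) atTop atTop → ∀ᵐ β : ℝ, 0 < β →
    (fun n : ℕ => (M S (Z β) n : ℝ) -
      Real.exp Real.eulerMascheroniConstant / Real.log (1 + Real.sqrt 2) * V S n) =O[atTop]
    (fun n : ℕ => Real.sqrt (V S n * Real.log (Real.log n)) *
      (Real.log (V S n * Real.log (Real.log n))) ^ 2)) ∧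
  (∀ S : Set ℕ, ∀ᵐ β : ℝ, 0 < β →
    ({l : ℕ | l.Prime ∧ l ∈ S ∧ (roughPart l ⌊Z β l⌋₊).Prime}.Infinite ↔ Tendsto (V S) atTop atTop))

lemma V_eq (S : Set ℕ) (n : ℕ) : V S n = Pool.Agent.TH888.R.VS S n := by
  classical
  unfold V Pool.Agent.TH888.R.VS
  rw [Finset.sum_filter]
  refine Finset.sum_congr rfl fun p _ => ?_
  by_cases h : p.Prime ∧ p ∈ S
  · rw [if_pos h, if_pos ⟨h.2, h.1⟩]
    rfl
  · rw [if_neg h, if_neg fun h1 => h ⟨h1.2, h1.1⟩]

lemma M_eq (S : Set ℕ) (Z : ℕ → ℝ) (n : ℕ) :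
    M S Z n = Pool.Agent.TH888.R.cS S (fun l => ⌊Z l⌋₊) n := by
  classical
  unfold M Pool.Agent.TH888.R.cS
  rfl

lemma laws_of {Z : ℝ → ℕ → ℝ} (h : ∀ S : Set ℕ, ∀ᵐ β : ℝ, 0 < β →
    Pool.Agent.TH888.R.Pt (fun p => ⌊Z β p⌋₊)
      (Real.exp Real.eulerMascheroniConstant / Real.log (1 + Real.sqrt 2)) S) : Laws Z := by
  have hV : ∀ S, V S = Pool.Agent.TH888.R.VS S := fun S => funext fun n => V_eq S n
  refine ⟨?_, fun S hS => ?_, fun S => ?_⟩
  · filter_upwards [h Set.univ] with β hβ h0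
    obtain ⟨B, hB, h⟩ := (hβ h0).law Pool.Agent.TH888.R.VS_univ_tendsto
    simp only [M_eq]
    exact Pool.Agent.TH888.R.bigO_all hB h
  · rw [hV] at hS ⊢
    filter_upwards [h S] with β hβ h0
    obtain ⟨B, hB, h⟩ := (hβ h0).law hS
    simp only [M_eq]
    exact Pool.Agent.TH888.R.bigO_set hB hS h
  · rw [hV]
    filter_upwards [h S] with β hβ h0
    constructor
    · intro hi
      by_contra hn
      exact hi ((hβ h0).fin hn)
    · exact (hβ h0).inf

lemma sol_eq (k : ℕ) : sol k = Pool.Agent.R449.SP.sol k := by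
  induction k with
  | zero => rfl
  | succ k ih =>
    unfold sol Pool.Agent.R449.SP.sol
    rw [ih]

/-- The solutions of `p ^ 2 - 2 r ^ 2 = -1` are values of one member of the family of the real orbits
of `(x, y) ↦ (x + 2 y, x + y)`; for every `B` and almost every `β > 0` the counting law holds for both
coordinates. -/
theorem result :
    (∀ (β B : ℝ) (n : ℕ), X β B (n + 1) = X β B n + 2 * Y β B n ∧
      Y β B (n + 1) = X β B n + Y β B n) ∧
    (∀ k : ℕ, X 1 1 (2 * k + 1) = (sol k).1 ∧ Y 1 1 (2 * k + 1) = (sol k).2 ∧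
      (sol k).1 ^ 2 + 1 = 2 * (sol k).2 ^ 2) ∧
    (∀ k : ℕ, 5 ≤ 2 * k + 1 → (2 * k + 1).Prime →
      roughPart (2 * k + 1) ⌊X 1 1 (2 * k + 1)⌋₊ = (sol k).1 ∧
      roughPart (2 * k + 1) ⌊Y 1 1 (2 * k + 1)⌋₊ = (sol k).2) ∧
    (∀ B : ℝ, Laws (fun β => X β B) ∧ Laws (fun β => Y β B)) := by
  refine ⟨Pool.Agent.R449.SP.XY_succ, fun k => ?_, fun k h5 hp => ?_, fun B => ⟨?_, ?_⟩⟩
  · rw [sol_eq]
    exact ⟨(Pool.Agent.R449.SP.XY_sol k).1, (Pool.Agent.R449.SP.XY_sol k).2,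
      Pool.Agent.R449.SP.sol_pell k⟩
  · rw [sol_eq]
    exact Pool.Agent.R449.SP.rough_sol h5 hp
  · exact laws_of fun S => Pool.Agent.R449.SP.pt_X B S
  · exact laws_of fun S => Pool.Agent.R449.SP.pt_Y B S

end Pool.Agent.Results.MP_927e73_nt.SilverBase
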