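import Mathlib
import Pool.Agent.R449.SP.Sil
import Pool.Agent.R500.FB.Fib

set_option autoImplicit false

/-!
# Exceptional and generic real solutions of the recurrence of `p ^ 2 - 2 r ^ 2 = -1`

The real solutions of `T (n + 2) = 2 T (n + 1) + T n` are the sequences
`T β B n = β (1 + √2) ^ n + B (1 - √2) ^ n`.  The solutions `(p_k, r_k)` of `p ^ 2 - 2 r ^ 2 = -1` are
the terms of index `2 k + 1` of the solutions with `(β, B) = (1 / 2, 1 / 2)` and
`(β, B) = (1 / (2 √2), -1 / (2 √2))`.  For a prime `l` let `W β B l` be the `l`-rough part (the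
product, with multiplicity, of the prime factors larger than `l`) of `⌊T β B l⌋`; for the two special
solutions and `l = 2 k + 1 ≥ 5` this is `p_k` and `r_k`.  Let `M β B n` be the number of primes
`l ≤ n` with `W β B l` prime.

We prove that for every `B` every interval contains uncountably many `β` for which `W β B l` is prime
for finitely many primes `l` only, and that for comeagre many `β > 0` the function `M β B` has
arbitrarily slow growth along a sequence and `M β B n / log n` has every number of the interval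
`[0, e ^ γ / log (1 + √2)]` as a limit point.
-/

namespace Pool.Agent.Results.MP_927e73_nt.SilverGeneric

open Filter Topology Set

/-- The positive integer solutions of `p ^ 2 - 2 r ^ 2 = -1`. -/
def sol : ℕ → ℕ × ℕ
  | 0 => (1, 1)
  | (k + 1) => (3 * (sol k).1 + 4 * (sol k).2, 2 * (sol k).1 + 3 * (sol k).2)

/-- The real solutions of `T (n + 2) = 2 T (n + 1) + T n`. -/
noncomputable def T (β B : ℝ) (n : ℕ) : ℝ := β * (1 + Real.sqrt 2) ^ n + B * (1 - Real.sqrt 2) ^ n

/-- The product, with multiplicity, of the prime factors of `m` that are larger than `l`. -/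
def roughPart (l m : ℕ) : ℕ := (m.primeFactorsList.filter (fun r => l < r)).prod

/-- The `l`-rough part of `⌊T β B l⌋`. -/
noncomputable def W (β B : ℝ) (l : ℕ) : ℕ := roughPart l ⌊T β B l⌋₊

/-- The number of primes `l ≤ n` for which `W β B l` is prime. -/
noncomputable def M (β B : ℝ) (n : ℕ) : ℕ :=
  ((Finset.range (n + 1)).filter (fun l => l.Prime ∧ (W β B l).Prime)).card

lemma sol_eq (k : ℕ) : sol k = Pool.Agent.R449.SP.sol k := by
  induction k with
  | zero => rfl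
  | succ k ih =>
    unfold sol Pool.Agent.R449.SP.sol
    rw [ih]

lemma T_X (n : ℕ) : T (1 / 2) (1 / 2) n = Pool.Agent.R449.SP.X 1 1 n := by
  unfold T Pool.Agent.R449.SP.X
  ring

lemma T_Y (n : ℕ) : T (1 / (2 * Real.sqrt 2)) (-(1 / (2 * Real.sqrt 2))) n =
    Pool.Agent.R449.SP.Y 1 1 n := by
  unfold T Pool.Agent.R449.SP.Y
  ring

lemma W_eq (β B : ℝ) (l : ℕ) : W β B l =
    Pool.Agent.R500.FB.W (1 + Real.sqrt 2) (1 - Real.sqrt 2) β B l := rfl

lemma M_eq (β B : ℝ) (n : ℕ) : M β B n =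
    Pool.Agent.R500.FB.M (1 + Real.sqrt 2) (1 - Real.sqrt 2) β B n := rfl

lemma M_eq' (β B : ℝ) (n : ℕ) : Pool.Agent.R500.FB.M (1 + Real.sqrt 2) (1 - Real.sqrt 2) β B n =
    Pool.Agent.TH888.R.cS Set.univ
      (fun l => ⌊β * (1 + Real.sqrt 2) ^ l + B * (1 - Real.sqrt 2) ^ l⌋₊) n := by
  unfold Pool.Agent.R500.FB.M Pool.Agent.TH888.R.cS Pool.Agent.R500.FB.W Pool.Agent.R500.FB.T
  congr 1
  ext p
  simp only [Finset.mem_filter, Set.mem_univ, true_and]
  rfl

lemma law (B : ℝ) : ∀ᵐ β : ℝ, 0 < β → Tendsto (fun n : ℕ =>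
    (Pool.Agent.R500.FB.M (1 + Real.sqrt 2) (1 - Real.sqrt 2) β B n : ℝ) / Real.log n) atTop
    (𝓝 (Real.exp Real.eulerMascheroniConstant / Real.log (1 + Real.sqrt 2))) := by
  filter_upwards [Pool.Agent.H19P.pt_unit Pool.Agent.R449.SP.one_lt_al Pool.Agent.R449.SP.al_add
    Pool.Agent.R449.SP.al_mul B Set.univ] with β hβ h0
  obtain ⟨B', hB, h⟩ := (hβ h0).law Pool.Agent.TH888.R.VS_univ_tendsto
  refine Pool.Agent.R500.FB.tendsto_of_bigO ?_
  simp only [M_eq']
  exact Pool.Agent.TH888.R.bigO_all hB h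

/-- **Exceptional and generic solutions.** -/
theorem result :
    (∀ k : ℕ, T (1 / 2) (1 / 2) (2 * k + 1) = (sol k).1 ∧
      T (1 / (2 * Real.sqrt 2)) (-(1 / (2 * Real.sqrt 2))) (2 * k + 1) = (sol k).2 ∧
      (sol k).1 ^ 2 + 1 = 2 * (sol k).2 ^ 2) ∧
    (∀ k : ℕ, 5 ≤ 2 * k + 1 → (2 * k + 1).Prime →
      W (1 / 2) (1 / 2) (2 * k + 1) = (sol k).1 ∧
      W (1 / (2 * Real.sqrt 2)) (-(1 / (2 * Real.sqrt 2))) (2 * k + 1) = (sol k).2) ∧
    (∀ B u v : ℝ, u < v →
      ¬ {β : ℝ | β ∈ Set.Ioo u v ∧ {l : ℕ | l.Prime ∧ (W β B l).Prime}.Finite}.Countable) ∧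
    (∀ B : ℝ, ∀ f : ℕ → ℝ, Tendsto f atTop atTop → ∀ᶠ β : ℝ in residual ℝ, 0 < β →
      ∃ᶠ n : ℕ in atTop, (M β B n : ℝ) < f n) ∧
    (∀ B : ℝ, ∀ᶠ β : ℝ in residual ℝ, 0 < β → ∀ c : ℝ, 0 ≤ c →
      c ≤ Real.exp Real.eulerMascheroniConstant / Real.log (1 + Real.sqrt 2) →
      MapClusterPt c atTop (fun n : ℕ => (M β B n : ℝ) / Real.log n)) := by
  refine ⟨fun k => ?_, fun k h5 hp => ?_, fun B u v huv => ?_, fun B f hf => ?_, fun B => ?_⟩
  · rw [sol_eq, T_X, T_Y]
    exact ⟨(Pool.Agent.R449.SP.XY_sol k).1, (Pool.Agent.R449.SP.XY_sol k).2,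
      Pool.Agent.R449.SP.sol_pell k⟩
  · unfold W
    rw [sol_eq, T_X, T_Y]
    exact Pool.Agent.R449.SP.rough_sol h5 hp
  · have h := Pool.Agent.R500.FB.few Pool.Agent.R449.SP.one_lt_al Pool.Agent.R449.SP.al_add
      Pool.Agent.R449.SP.al_mul B huv
    simp only [← W_eq] at h
    exact h
  · have h := Pool.Agent.R500.FB.generic_low Pool.Agent.R449.SP.one_lt_al
      Pool.Agent.R449.SP.al_add Pool.Agent.R449.SP.al_mul B hf
    simp only [← M_eq] at h
    exact h
  · have h := Pool.Agent.R500.FB.generic_law Pool.Agent.R449.SP.one_lt_al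
      Pool.Agent.R449.SP.al_add Pool.Agent.R449.SP.al_mul B (by
        have := Real.log_pos Pool.Agent.R449.SP.one_lt_al
        positivity) (law B)
    simp only [← M_eq] at h
    exact h

end Pool.Agent.Results.MP_927e73_nt.SilverGeneric
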