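import Mathlib
import Pool.Agent.R449.SP.Sil
import Pool.Agent.R449.SP.Fin

set_option autoImplicit false

/-!
# Pairs of primes in the real solutions of the recurrence of `p ^ 2 - 2 r ^ 2 = -1`

The solutions of `p ^ 2 - 2 r ^ 2 = -1` are the points of odd index in the orbit of `(1, 0)` under
`(x, y) ↦ (x + 2 y, x + y)`.  The real orbits of this map are the sequences `(X β B n, Y β B n)`.  For
a prime `l` the `l`-rough parts of the integer parts of the two coordinates of index `l` are, for the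
orbit of `(1, 0)` and `l ≥ 5`, the numbers `p_k` and `r_k`, `l = 2 k + 1`.  We prove that for every
`B` and almost every `β > 0` each of the two rough parts is prime for infinitely many primes `l`, but
that both are prime for finitely many `l` only.
-/

namespace Pool.Agent.Results.MP_927e73_nt.SilverPairs

open Filter Topology MeasureTheory

/-- The positive integer solutions of `p ^ 2 - 2 r ^ 2 = -1`. -/
def sol : ℕ → ℕ × ℕ
  | 0 => (1, 1)
  | (k + 1) => (3 * (sol k).1 + 4 * (sol k).2, 2 * (sol k).1 + 3 * (sol k).2)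

/-- First coordinates of the real orbits of `(x, y) ↦ (x + 2 y, x + y)`. -/
noncomputable def X (β B : ℝ) (n : ℕ) : ℝ :=
  (β * (1 + Real.sqrt 2) ^ n + B * (1 - Real.sqrt 2) ^ n) / 2

/-- Second coordinates of the real orbits of `(x, y) ↦ (x + 2 y, x + y)`. -/
noncomputable def Y (β B : ℝ) (n : ℕ) : ℝ :=
  (β * (1 + Real.sqrt 2) ^ n - B * (1 - Real.sqrt 2) ^ n) / (2 * Real.sqrt 2)

/-- The product, with multiplicity, of the prime factors of `m` that are larger than `l`. -/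
def roughPart (l m : ℕ) : ℕ := (m.primeFactorsList.filter (fun r => l < r)).prod

lemma sol_eq (k : ℕ) : sol k = Pool.Agent.R449.SP.sol k := by
  induction k with
  | zero => rfl
  | succ k ih =>
    unfold sol Pool.Agent.R449.SP.sol
    rw [ih]

/-- the integers are far from the multiples of `√2` -/
lemma dio (a b : ℕ) (ha : 1 ≤ a) (hb : 1 ≤ b) :
    1 ≤ |(a : ℝ) - b * Real.sqrt 2| * (2 * (a + b)) := by
  have hs := Pool.Agent.R449.SP.s2_sq
  have hp := Pool.Agent.R449.SP.s2_pos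
  have hl := Pool.Agent.R449.SP.s2_lt
  have ha1 : (1 : ℝ) ≤ a := by exact_mod_cast ha
  have hb1 : (1 : ℝ) ≤ b := by exact_mod_cast hb
  have hne : (a : ℤ) ^ 2 - 2 * (b : ℤ) ^ 2 ≠ 0 := by
    intro h0
    have h1 : (a : ℝ) ^ 2 = 2 * (b : ℝ) ^ 2 := by
      have : ((a : ℤ) ^ 2 - 2 * (b : ℤ) ^ 2 : ℤ) = 0 := h0
      have h2 : (((a : ℤ) ^ 2 - 2 * (b : ℤ) ^ 2 : ℤ) : ℝ) = 0 := by rw [this]; norm_num
      push_cast at h2
      linarith
    have h3 : Real.sqrt 2 = (a : ℝ) / b := by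
      rw [eq_div_iff (by positivity)]
      have h4 : (Real.sqrt 2 * b) ^ 2 = (a : ℝ) ^ 2 := by rw [mul_pow, hs, h1]
      exact (pow_left_inj₀ (by positivity) (by positivity) two_ne_zero).1 h4
    exact irrational_sqrt_two ⟨(a : ℚ) / b, by push_cast; exact h3.symm⟩
  have h1 : (1 : ℝ) ≤ |(a : ℝ) ^ 2 - 2 * (b : ℝ) ^ 2| := by
    have := Int.one_le_abs hne
    have h2 : ((1 : ℤ) : ℝ) ≤ ((|(a : ℤ) ^ 2 - 2 * (b : ℤ) ^ 2| : ℤ) : ℝ) := by exact_mod_cast this
    push_cast at h2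
    exact h2
  have h2 : |(a : ℝ) ^ 2 - 2 * (b : ℝ) ^ 2| = |(a : ℝ) - b * Real.sqrt 2| * (a + b * Real.sqrt 2) := by
    have h3 : (0 : ℝ) ≤ a + b * Real.sqrt 2 := by positivity
    have h4 : (a : ℝ) ^ 2 - 2 * (b : ℝ) ^ 2 = (a - b * Real.sqrt 2) * (a + b * Real.sqrt 2) := by
      linear_combination ((b : ℝ) ^ 2) * hs
    rw [h4, abs_mul, abs_of_nonneg h3]
  rw [h2] at h1
  refine h1.trans (mul_le_mul_of_nonneg_left ?_ (abs_nonneg _))
  nlinarith

/-- For every `B` and almost every `β > 0`, each coordinate of the real orbit of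
`(x, y) ↦ (x + 2 y, x + y)` has prime rough part at infinitely many prime indices, but both
coordinates have prime rough parts at finitely many indices only. -/
theorem result :
    (∀ (β B : ℝ) (n : ℕ), X β B (n + 1) = X β B n + 2 * Y β B n ∧
      Y β B (n + 1) = X β B n + Y β B n) ∧
    (∀ k : ℕ, X 1 1 (2 * k + 1) = (sol k).1 ∧ Y 1 1 (2 * k + 1) = (sol k).2 ∧
      (sol k).1 ^ 2 + 1 = 2 * (sol k).2 ^ 2) ∧
    (∀ k : ℕ, 5 ≤ 2 * k + 1 → (2 * k + 1).Prime →
      roughPart (2 * k + 1) ⌊X 1 1 (2 * k + 1)⌋₊ = (sol k).1 ∧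
      roughPart (2 * k + 1) ⌊Y 1 1 (2 * k + 1)⌋₊ = (sol k).2) ∧
    (∀ B : ℝ, ∀ᵐ β : ℝ, 0 < β →
      {l : ℕ | l.Prime ∧ (roughPart l ⌊X β B l⌋₊).Prime}.Infinite ∧
      {l : ℕ | l.Prime ∧ (roughPart l ⌊Y β B l⌋₊).Prime}.Infinite ∧
      {l : ℕ | (roughPart l ⌊X β B l⌋₊).Prime ∧ (roughPart l ⌊Y β B l⌋₊).Prime}.Finite) := by
  refine ⟨Pool.Agent.R449.SP.XY_succ, fun k => ?_, fun k h5 hp => ?_, fun B => ?_⟩
  · rw [sol_eq]
    exact ⟨(Pool.Agent.R449.SP.XY_sol k).1, (Pool.Agent.R449.SP.XY_sol k).2,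
      Pool.Agent.R449.SP.sol_pell k⟩
  · rw [sol_eq]
    exact Pool.Agent.R449.SP.rough_sol h5 hp
  · have hs := Pool.Agent.R449.SP.s2_sq
    have hp := Pool.Agent.R449.SP.s2_pos
    have hl := Pool.Agent.R449.SP.s2_lt
    have h1s := Pool.Agent.R449.SP.one_lt_s2
    have hconj : |1 - Real.sqrt 2| ≤ 1 := by rw [abs_le]; constructor <;> linarith
    have hb : ∀ c : ℝ, ∀ p : ℕ, |(fun p : ℕ => c * (1 - Real.sqrt 2) ^ p) p| ≤ |c| * (1 : ℝ) ^ p := by
      intro c p
      simp only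
      rw [one_pow, abs_mul, abs_pow]
      exact mul_le_mul_of_nonneg_left (pow_le_one₀ (abs_nonneg _) hconj) (abs_nonneg _)
    have hfin := Pool.Agent.R449.SP.pairs_fin (α := 1 + Real.sqrt 2) (κ := 1) (A := 2)
      (θ := Real.sqrt 2) (by linarith) zero_le_one (by linarith) (hb (-(B / (2 * Real.sqrt 2)))) (hb B)
      (by norm_num) (by linarith) h1s.le dio
    have hfin' := Pool.Agent.R449.SP.ae_scale (c := 1 / (2 * Real.sqrt 2)) (by positivity) hfin
    filter_upwards [hfin', Pool.Agent.R449.SP.pt_X B Set.univ, Pool.Agent.R449.SP.pt_Y B Set.univ]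
      with β hf hx hy h0
    refine ⟨?_, ?_, ?_⟩
    · refine ((hx h0).inf Pool.Agent.TH888.R.VS_univ_tendsto).mono fun l hl => ⟨hl.1, hl.2.2⟩
    · refine ((hy h0).inf Pool.Agent.TH888.R.VS_univ_tendsto).mono fun l hl => ⟨hl.1, hl.2.2⟩
    · refine (hf (by positivity)).subset fun l hl => ?_
      obtain ⟨h1, h2⟩ := hl
      have e1 : 1 / (2 * Real.sqrt 2) * β * (1 + Real.sqrt 2) ^ l +
          -(B / (2 * Real.sqrt 2)) * (1 - Real.sqrt 2) ^ l = Y β B l := by
        unfold Y; ring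
      have e2 : Real.sqrt 2 * (1 / (2 * Real.sqrt 2) * β) * (1 + Real.sqrt 2) ^ l +
          (Real.sqrt 2 * (-(B / (2 * Real.sqrt 2)) * (1 - Real.sqrt 2) ^ l) +
            B * (1 - Real.sqrt 2) ^ l) = X β B l := by
        unfold X
        have := hp.ne'
        field_simp
        ring
      refine ⟨?_, ?_⟩
      · show (Pool.Agent.H305R2.roughPart l ⌊_⌋₊).Prime
        rw [e1]
        exact h2
      · show (Pool.Agent.H305R2.roughPart l ⌊_⌋₊).Prime
        rw [e2]
        exact h1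

end Pool.Agent.Results.MP_927e73_nt.SilverPairs
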